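import Pool.Agent.D0H19.Bend.Generic

/-!
# The bend number depends on the chosen slope set, for every number of slopes `d ≥ 4`
-/

namespace Pool.Agent.Results.MP_4b3eba_co.SlopeDependence

open Pool.Agent.D0H19.Bend

/-- There is a finite graph `G` such that for every `d ≥ 4` the `d`-bend number of `G` is at most
`1`, while some set `D` of `d` pairwise non-parallel slopes has `β_D(G) ≥ 2`. -/
theorem result : ∃ (V : Type) (_ : Finite V) (G : SimpleGraph V), ∀ d : ℕ, 4 ≤ d →
    bendNumber d G ≤ 1 ∧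
    ∃ D : Set (Submodule ℝ (ℝ × ℝ)), IsSlopeSet d D ∧ 2 ≤ slopeBendNumber D G := by
  refine ⟨Vx, inferInstance, G, ?_⟩
  intro d hd
  constructor
  · obtain ⟨D, hD, hrep⟩ := exists_good d hd
    refine (iInf₂_le D hD).trans ?_
    refine (iInf₂_le 1 hrep).trans ?_
    simp
  · obtain ⟨D, hD, hrep⟩ := exists_bad d
    refine ⟨D, hD, le_iInf₂ ?_⟩
    intro k hk
    by_contra hlt
    have hk1 : k ≤ 1 := by
      by_contra h
      apply hlt
      have : 2 ≤ k := by omega
      exact_mod_cast this
    obtain ⟨P, h1, h2, h3⟩ := hk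
    exact hrep ⟨P, h1, fun v => (h2 v).trans hk1, h3⟩

end Pool.Agent.Results.MP_4b3eba_co.SlopeDependence
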